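import Pool.Agent.helper82.SW.SpecW

set_option autoImplicit false

namespace Pool.Agent.helper82.SW

open MeasureTheory

theorem FH_sh_inj : Function.Injective sh := by
  rintro ⟨a, b⟩ ⟨c, d⟩ h
  simp only [sh, Prod.mk.injEq] at h
  obtain ⟨h1, h2⟩ := h
  subst h2
  have : a = c := by omega
  rw [this]

theorem FH (hA : AVG_stmt) (hC : CR_stmt) : FH_stmt := by
  classical
  intro i S
  unfold SpectralPivotal.fhat TP.fh
  have h1 := hA.1 (2 ^ i) (fun ω => SpectralPivotal.f (2 ^ i) ω * ∏ x ∈ S, ((ω x : ℤ) : ℝ))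
  rw [← h1]
  refine integral_congr_ae (Filter.Eventually.of_forall fun b => ?_)
  have h2 : SpectralPivotal.f (2 ^ i) (cfg (2 ^ i) b) = TP.pmf (TP.Fc i) b := by
    unfold SpectralPivotal.f TP.pmf
    by_cases h : b ∈ TP.Fc i
    · rw [if_pos ((hC i b).2 h), Set.indicator_of_mem h]
      simp only [Pi.one_apply]
      norm_num
    · rw [if_neg (fun h' => h ((hC i b).1 h')), Set.indicator_of_notMem h]
      norm_num
  have h3 : ∏ v ∈ S.image (fun x : SpectralPivotal.sites (2 ^ i) => sh x), TP.sg (b v) =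
      ∏ x ∈ S, (((cfg (2 ^ i) b) x : ℤ) : ℝ) := by
    rw [Finset.prod_image]
    · refine Finset.prod_congr rfl fun x _ => ?_
      unfold TP.sg cfg
      by_cases h : b (sh x) = true
      · rw [if_pos h, if_pos h]
        simp
      · rw [if_neg h, if_neg h]
        simp
    · intro x _ y _ hxy
      exact Subtype.ext (FH_sh_inj hxy)
  simp only
  rw [h2, h3]

end Pool.Agent.helper82.SW
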